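import Pool.Agent.H46.SK.Targets

/-!
# Module LAM of board po_modules (MP_2fe131_nt)
-/

namespace Pool.Agent.H69.SKL

open Finset SK

theorem mem_blk {k r p : ℕ} : p ∈ blk k r ↔ p < k ∧ p.Prime ∧ 3 ≤ p ∧ r * p ^ (2 * r - 1) < k ∧
    k ^ 2 ≤ p ^ (4 * r - 1) := by
  simp [blk]

theorem blk_disj {k r r' : ℕ} (h1 : 1 ≤ r) (h : r < r') : Disjoint (blk k r) (blk k r') := by
  rw [Finset.disjoint_left]
  intro p hp hp'
  obtain ⟨_, _, h3, _, h5⟩ := mem_blk.1 hp
  obtain ⟨_, _, _, h6, _⟩ := mem_blk.1 hp'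
  have hp1 : 1 ≤ p := by omega
  have a1 : p ^ (2 * r' - 1) ≤ r' * p ^ (2 * r' - 1) :=
    Nat.le_mul_of_pos_left _ (by omega)
  have a2 : p ^ (2 * r' - 1) < k := lt_of_le_of_lt a1 h6
  have a3 : p ^ (4 * r' - 2) < k ^ 2 := by
    have : p ^ (4 * r' - 2) = (p ^ (2 * r' - 1)) ^ 2 := by
      rw [← pow_mul]; congr 1; omega
    rw [this]
    exact Nat.pow_lt_pow_left a2 (by norm_num)
  have a4 : p ^ (4 * r - 1) ≤ p ^ (4 * r' - 2) := Nat.pow_le_pow_right hp1 (by omega)
  omega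

theorem par_sum (a t : ℕ) (ht : t < 2) (j : ℕ) :
    1 / 2 * (Real.log ((a + j + 2 : ℕ) : ℝ) - Real.log ((a + 3 : ℕ) : ℝ)) ≤
      ∑ r ∈ (Finset.Icc a (a + j)).filter (fun r => r % 2 = t), 1 / (r : ℝ) := by
  induction j using Nat.twoStepInduction with
  | zero =>
    have h1 : Real.log ((a + 0 + 2 : ℕ) : ℝ) ≤ Real.log ((a + 3 : ℕ) : ℝ) := by
      apply Real.log_le_log (by positivity)
      push_cast; linarith
    have h2 : 0 ≤ ∑ r ∈ (Finset.Icc a (a + 0)).filter (fun r => r % 2 = t), 1 / (r : ℝ) :=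
      Finset.sum_nonneg (fun r _ => by positivity)
    linarith
  | one =>
    have h1 : Real.log ((a + 1 + 2 : ℕ) : ℝ) ≤ Real.log ((a + 3 : ℕ) : ℝ) := by
      apply Real.log_le_log (by positivity)
      push_cast; linarith
    have h2 : 0 ≤ ∑ r ∈ (Finset.Icc a (a + 1)).filter (fun r => r % 2 = t), 1 / (r : ℝ) :=
      Finset.sum_nonneg (fun r _ => by positivity)
    linarith
  | more j ih _ =>
    have hp : (0 : ℝ) < ((a + j + 2 : ℕ) : ℝ) := by positivity
    have hp2 : (0 : ℝ) < ((a + (j + 2) + 2 : ℕ) : ℝ) := by positivity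
    have h1 : Real.log ((a + (j + 2) + 2 : ℕ) : ℝ) - Real.log ((a + j + 2 : ℕ) : ℝ) ≤
        2 * (1 / ((a + j + 2 : ℕ) : ℝ)) := by
      rw [← Real.log_div hp2.ne' hp.ne']
      refine le_trans (Real.log_le_sub_one_of_pos (div_pos hp2 hp)) (le_of_eq ?_)
      field_simp
      push_cast
      ring
    have h3 : ∑ r ∈ (Finset.Icc a (a + j)).filter (fun r => r % 2 = t), 1 / (r : ℝ) +
        1 / ((a + j + 2 : ℕ) : ℝ) ≤
        ∑ r ∈ (Finset.Icc a (a + (j + 2))).filter (fun r => r % 2 = t), 1 / (r : ℝ) := by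
      obtain ⟨s, hs1, hs2, hs3⟩ : ∃ s, a + j < s ∧ s ≤ a + j + 2 ∧ s % 2 = t := by
        by_cases h : (a + j + 1) % 2 = t
        · exact ⟨a + j + 1, by omega, by omega, h⟩
        · exact ⟨a + j + 2, by omega, by omega, by omega⟩
      have hsub : insert s ((Finset.Icc a (a + j)).filter (fun r => r % 2 = t)) ⊆
          (Finset.Icc a (a + (j + 2))).filter (fun r => r % 2 = t) := by
        intro r hr
        rcases Finset.mem_insert.1 hr with h | h
        · subst h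
          simp only [Finset.mem_filter, Finset.mem_Icc]
          omega
        · simp only [Finset.mem_filter, Finset.mem_Icc] at h ⊢
          omega
      have hns : s ∉ (Finset.Icc a (a + j)).filter (fun r => r % 2 = t) := by
        simp only [Finset.mem_filter, Finset.mem_Icc]
        omega
      have h4 := Finset.sum_le_sum_of_subset_of_nonneg (f := fun r : ℕ => 1 / (r : ℝ)) hsub
        (fun r _ _ => by positivity)
      rw [Finset.sum_insert hns] at h4
      have h5 : 1 / ((a + j + 2 : ℕ) : ℝ) ≤ 1 / (s : ℝ) := by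
        apply one_div_le_one_div_of_le
        · have : 0 < s := by omega
          exact_mod_cast this
        · exact_mod_cast hs2
      linarith
    linarith

theorem par_blk (k R t : ℕ) (ht : t < 2) (hR : 16 ≤ R)
    (hC : ∀ r, R ^ 2 ≤ r → r ≤ R ^ 3 → 1 / (100 * (r : ℝ)) ≤ ∑ p ∈ blk k r, (1 : ℝ) / p) :
    1 / 400 * Real.log R ≤
      ∑ p ∈ ((Finset.Icc (R ^ 2) (R ^ 3)).filter (fun r => r % 2 = t)).biUnion (fun r => blk k r),
        (1 : ℝ) / p := by
  have hR2 : 1 ≤ R ^ 2 := Nat.one_le_pow _ _ (by omega)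
  have hR23 : R ^ 2 ≤ R ^ 3 := Nat.pow_le_pow_right (by omega) (by norm_num)
  rw [Finset.sum_biUnion]
  · have h1 : 1 / 100 * ∑ r ∈ (Finset.Icc (R ^ 2) (R ^ 3)).filter (fun r => r % 2 = t), 1 / (r : ℝ)
        ≤ ∑ r ∈ (Finset.Icc (R ^ 2) (R ^ 3)).filter (fun r => r % 2 = t),
          ∑ p ∈ blk k r, (1 : ℝ) / p := by
      rw [Finset.mul_sum]
      refine Finset.sum_le_sum ?_
      intro r hr
      have h := Finset.mem_Icc.1 (Finset.mem_filter.1 hr).1
      refine le_trans (le_of_eq ?_) (hC r h.1 h.2)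
      rw [div_mul_div_comm, mul_one]
    have h2 := par_sum (R ^ 2) t ht (R ^ 3 - R ^ 2)
    have h3 : R ^ 2 + (R ^ 3 - R ^ 2) = R ^ 3 := by omega
    rw [h3] at h2
    have hRp : (0 : ℝ) < R := by
      have : 0 < R := by omega
      exact_mod_cast this
    have hR1 : (16 : ℝ) ≤ R := by exact_mod_cast hR
    have h4 : Real.log ((R ^ 2 + 3 : ℕ) : ℝ) ≤ Real.log 4 + 2 * Real.log R := by
      have : Real.log 4 + 2 * Real.log R = Real.log (4 * (R : ℝ) ^ 2) := by
        rw [Real.log_mul (by norm_num) (by positivity), Real.log_pow]; norm_num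
      rw [this]
      apply Real.log_le_log (by positivity)
      push_cast
      nlinarith
    have h5 : 3 * Real.log R ≤ Real.log ((R ^ 3 + 2 : ℕ) : ℝ) := by
      have : 3 * Real.log R = Real.log ((R : ℝ) ^ 3) := by
        rw [Real.log_pow]; norm_num
      rw [this]
      apply Real.log_le_log (by positivity)
      push_cast
      linarith
    have h6 : 2 * Real.log 4 ≤ Real.log R := by
      have : 2 * Real.log 4 = Real.log 16 := by
        rw [show (16 : ℝ) = 4 ^ 2 by norm_num, Real.log_pow]; norm_num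
      rw [this]
      exact Real.log_le_log (by norm_num) hR1
    linarith
  · intro r hr r' hr' hne
    have h := Finset.mem_Icc.1 (Finset.mem_filter.1 (Finset.mem_coe.1 hr)).1
    have h' := Finset.mem_Icc.1 (Finset.mem_filter.1 (Finset.mem_coe.1 hr')).1
    rcases Nat.lt_or_gt_of_ne hne with hlt | hlt
    · exact blk_disj (by omega) hlt
    · exact (blk_disj (by omega) hlt).symm

theorem pf_LAM (hCHE : TARGET_CHE) (hQB : TARGET_QB) : TARGET_LAM := by
  obtain ⟨R0, hC⟩ := hCHE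
  refine ⟨max R0 16, 1 / 400, by norm_num, ?_⟩
  intro k R hk hR hRk
  have hR0 : R0 ≤ R := le_trans (le_max_left _ _) hR
  have hR16 : 16 ≤ R := le_trans (le_max_right _ _) hR
  have hRp : (0 : ℝ) < R := by
    have : 0 < R := by omega
    exact_mod_cast this
  have hR1 : (1 : ℝ) ≤ R := by
    have : 1 ≤ R := by omega
    exact_mod_cast this
  have hR2 : 1 ≤ R ^ 2 := Nat.one_le_pow _ _ (by omega)
  have hcub : ∀ r : ℕ, r ≤ R ^ 3 → (r : ℝ) ^ 3 ≤ Real.log k := by
    intro r hr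
    refine le_trans ?_ hRk
    have h1 : (r : ℝ) ≤ (R : ℝ) ^ 3 := by exact_mod_cast hr
    have h2 : (r : ℝ) ^ 3 ≤ ((R : ℝ) ^ 3) ^ 3 := pow_le_pow_left₀ (by positivity) h1 3
    rw [← pow_mul] at h2
    exact le_trans h2 (pow_le_pow_right₀ hR1 (by norm_num))
  have hR4 : 4 ≤ R ^ 2 := by nlinarith
  have hmem : ∀ p ∈ P1 k R ∪ P2 k R, ∃ r, R ^ 2 ≤ r ∧ r ≤ R ^ 3 ∧ p ∈ blk k r := by
    intro p hp
    rcases Finset.mem_union.1 hp with h | h
    · obtain ⟨r, hr, hpr⟩ := Finset.mem_biUnion.1 h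
      have h1 := Finset.mem_Icc.1 (Finset.mem_filter.1 hr).1
      exact ⟨r, h1.1, h1.2, hpr⟩
    · obtain ⟨r, hr, hpr⟩ := Finset.mem_biUnion.1 h
      have h1 := Finset.mem_Icc.1 (Finset.mem_filter.1 hr).1
      exact ⟨r, h1.1, h1.2, hpr⟩
  have hlk : 0 ≤ Real.log k := le_trans (by positivity) hRk
  refine ⟨par_blk k R 0 (by norm_num) hR16 (fun r h1 h2 => hC k R r hk hR0 hRk h1 h2),
    par_blk k R 1 (by norm_num) hR16 (fun r h1 h2 => hC k R r hk hR0 hRk h1 h2), ?_, ?_, ?_⟩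
  · rw [Finset.disjoint_left]
    intro p hp hp'
    obtain ⟨r, hr, hpr⟩ := Finset.mem_biUnion.1 hp
    obtain ⟨r', hr', hpr'⟩ := Finset.mem_biUnion.1 hp'
    have h1 := Finset.mem_filter.1 hr
    have h2 := Finset.mem_filter.1 hr'
    have h3 := Finset.mem_Icc.1 h1.1
    have h4 := Finset.mem_Icc.1 h2.1
    have hne : r ≠ r' := by
      intro h; subst h
      have := h1.2; have := h2.2; omega
    rcases Nat.lt_or_gt_of_ne hne with hlt | hlt
    · exact Finset.disjoint_left.1 (blk_disj (by omega) hlt) hpr hpr'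
    · exact Finset.disjoint_left.1 (blk_disj (by omega) hlt) hpr' hpr
  · intro p hp
    obtain ⟨r, h1, h2, h3⟩ := hmem p hp
    obtain ⟨_, hpp, hp3, _, _⟩ := mem_blk.1 h3
    obtain ⟨hq, _, _⟩ := hQB k r hk (by omega) (hcub r h2)
    obtain ⟨_, hq2, hq3⟩ := hq p h3
    refine ⟨hpp, hp3, hq2, le_trans hq3 ?_⟩
    apply div_le_div_of_nonneg_left hlk (by positivity)
    have h5 : (R : ℝ) ^ 2 ≤ r := by exact_mod_cast h1
    have h6 : (1 : ℝ) ≤ r := by
      have : 1 ≤ r := by omega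
      exact_mod_cast this
    linarith
  · have hsub : P1 k R ∪ P2 k R ⊆ Finset.Ioc (R ^ 2) k := by
      intro p hp
      obtain ⟨r, h1, h2, h3⟩ := hmem p hp
      obtain ⟨hpk, _, _, _, _⟩ := mem_blk.1 h3
      obtain ⟨hq, _, _⟩ := hQB k r hk (by omega) (hcub r h2)
      obtain ⟨hq1, _, _⟩ := hq p h3
      rw [Finset.mem_Ioc]
      omega
    have hRk2 : R ^ 2 ≤ k := by
      have h1 : (R : ℝ) ^ 2 ≤ Real.log k :=
        le_trans (pow_le_pow_right₀ hR1 (by norm_num)) hRk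
      have hk0 : (0 : ℝ) < k := by exact_mod_cast hk.pos
      have h2 := Real.log_le_sub_one_of_pos hk0
      have h3 : (R : ℝ) ^ 2 ≤ k := by linarith
      exact_mod_cast h3
    have h1 := Finset.sum_le_sum_of_subset_of_nonneg (f := fun p : ℕ => (1 : ℝ) / (p : ℝ) ^ 2)
      hsub (fun p _ _ => by positivity)
    refine le_trans h1 ?_
    have h2 : ∑ p ∈ Finset.Ioc (R ^ 2) k, (1 : ℝ) / (p : ℝ) ^ 2 ≤
        ((R ^ 2 : ℕ) : ℝ)⁻¹ - (k : ℝ)⁻¹ := by
      have h3 := sum_Ioc_inv_sq_le_sub (α := ℝ) (k := R ^ 2) (n := k) (by omega) hRk2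
      refine le_trans (le_of_eq ?_) h3
      refine Finset.sum_congr rfl ?_
      intro p _
      rw [one_div]
    refine le_trans h2 ?_
    have h4 : (0 : ℝ) ≤ (k : ℝ)⁻¹ := by positivity
    have h5 : ((R ^ 2 : ℕ) : ℝ)⁻¹ ≤ 1 / (R : ℝ) := by
      rw [one_div]
      apply inv_anti₀ hRp
      push_cast
      nlinarith
    linarith

end Pool.Agent.H69.SKL
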