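import Pool.Agent.H46.SK.Targets

/-!
# Modules T1, SMALL of board po_modules (MP_2fe131_nt)
-/

namespace Pool.Agent.H69.SKT

open Finset SK

theorem sum_odds (f : ℕ → ℝ) (m : ℕ) :
    ∑ u ∈ odds (2 * m + 1), f u = ∑ i ∈ Finset.range m, f (2 * i + 1) := by
  induction m with
  | zero =>
    have h0 : odds (2 * 0 + 1) = ∅ := by decide
    rw [h0]; simp
  | succ m ih =>
    have h : odds (2 * (m + 1) + 1) = insert (2 * m + 1) (odds (2 * m + 1)) := by
      ext n
      simp only [odds, Finset.mem_filter, Finset.mem_range, Finset.mem_insert]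
      omega
    have hn : (2 * m + 1) ∉ odds (2 * m + 1) := by
      simp [odds]
    rw [h, Finset.sum_insert hn, ih, Finset.sum_range_succ, add_comm]

theorem log_lower (m : ℕ) :
    1 / 2 * Real.log ((2 * m + 1 : ℕ) : ℝ) ≤ ∑ i ∈ Finset.range m, 1 / ((2 * i + 1 : ℕ) : ℝ) := by
  induction m with
  | zero => simp
  | succ m ih =>
    rw [Finset.sum_range_succ]
    have hp : (0 : ℝ) < ((2 * m + 1 : ℕ) : ℝ) := by positivity
    have hp2 : (0 : ℝ) < ((2 * (m + 1) + 1 : ℕ) : ℝ) := by positivity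
    have h1 : Real.log ((2 * (m + 1) + 1 : ℕ) : ℝ) - Real.log ((2 * m + 1 : ℕ) : ℝ) ≤
        2 / ((2 * m + 1 : ℕ) : ℝ) := by
      rw [← Real.log_div hp2.ne' hp.ne']
      have h2 := Real.log_le_sub_one_of_pos (div_pos hp2 hp)
      refine le_trans h2 (le_of_eq ?_)
      field_simp
      push_cast
      ring
    have h3 : 2 / ((2 * m + 1 : ℕ) : ℝ) = 2 * (1 / ((2 * m + 1 : ℕ) : ℝ)) := by ring
    rw [h3] at h1
    linarith

theorem log_upper (m : ℕ) :
    ∑ i ∈ Finset.range (m + 1), 1 / ((2 * i + 1 : ℕ) : ℝ) ≤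
      1 + 1 / 2 * Real.log ((2 * m + 1 : ℕ) : ℝ) := by
  induction m with
  | zero => simp
  | succ m ih =>
    rw [Finset.sum_range_succ]
    have hp : (0 : ℝ) < ((2 * m + 1 : ℕ) : ℝ) := by positivity
    have hp2 : (0 : ℝ) < ((2 * (m + 1) + 1 : ℕ) : ℝ) := by positivity
    have h1 : Real.log ((2 * m + 1 : ℕ) : ℝ) - Real.log ((2 * (m + 1) + 1 : ℕ) : ℝ) ≤
        - (2 * (1 / ((2 * (m + 1) + 1 : ℕ) : ℝ))) := by
      rw [← Real.log_div hp.ne' hp2.ne']
      have h2 := Real.log_le_sub_one_of_pos (div_pos hp hp2)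
      refine le_trans h2 (le_of_eq ?_)
      field_simp
      push_cast
      ring
    linarith

theorem eps_odd (k : ℕ) [Fact k.Prime] (u : ℕ) (hu : u ∈ odds k) : eps k (u : ZMod k) = 1 := by
  have h := Finset.mem_filter.1 hu
  have hlt : u < k := Finset.mem_range.1 h.1
  have hv : (u : ZMod k).val = u := ZMod.val_cast_of_lt hlt
  have hne : (u : ZMod k) ≠ 0 := by
    intro h0
    rw [h0, ZMod.val_zero] at hv
    have := h.2
    omega
  unfold eps
  rw [if_neg hne, hv, if_pos h.2]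

theorem T_one (k : ℕ) [Fact k.Prime] : T k 1 = ∑ u ∈ odds k, w k u := by
  unfold T
  refine Finset.sum_congr rfl ?_
  intro u hu
  rw [Nat.cast_one, inv_one, mul_one, eps_odd k u hu, mul_one]

theorem odd_of_prime (k : ℕ) (hk : k.Prime) (h2 : k ≠ 2) : ∃ m, 1 ≤ m ∧ k = 2 * m + 1 := by
  have h := hk.eq_two_or_odd
  have h3 := hk.two_le
  refine ⟨k / 2, ?_, ?_⟩ <;> omega

theorem pf_T1 (hWGT : TARGET_WGT) : TARGET_T1 := by
  intro k hk h2
  obtain ⟨m, hm, hkm⟩ := odd_of_prime k hk.out h2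
  have hk3 : 3 ≤ k := by omega
  obtain ⟨_, _, hW3, _, _, _⟩ := hWGT k hk3
  have hk0 : (0 : ℝ) < k := by positivity
  have hpi := Real.pi_pos
  have hpi3 := Real.pi_gt_three
  -- first error
  have e1 : |T k 1 - ∑ u ∈ odds k, 2 * k / (Real.pi * u)| ≤ m := by
    rw [T_one, ← Finset.sum_sub_distrib]
    refine le_trans (Finset.abs_sum_le_sum_abs _ _) ?_
    have h1 : ∑ u ∈ odds k, |w k u - 2 * k / (Real.pi * u)| ≤ ∑ _u ∈ odds k, (1 : ℝ) := by
      refine Finset.sum_le_sum ?_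
      intro u hu
      have h := Finset.mem_filter.1 hu
      exact hW3 u (by omega) (Finset.mem_range.1 h.1)
    refine le_trans h1 ?_
    have h2 : ∑ _u ∈ odds k, (1 : ℝ) = ∑ i ∈ Finset.range m, (1 : ℝ) := by
      rw [hkm]; exact sum_odds (fun _ => 1) m
    rw [h2]; simp
  have e2 : ∑ u ∈ odds k, 2 * k / (Real.pi * u) =
      2 * k / Real.pi * ∑ i ∈ Finset.range m, 1 / ((2 * i + 1 : ℕ) : ℝ) := by
    rw [← sum_odds (fun n => 1 / (n : ℝ)) m, ← hkm, Finset.mul_sum]
    refine Finset.sum_congr rfl ?_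
    intro u _
    rw [div_mul_div_comm, mul_one]
  have hlow := log_lower m
  have hup : ∑ i ∈ Finset.range m, 1 / ((2 * i + 1 : ℕ) : ℝ) ≤
      1 + 1 / 2 * Real.log ((2 * m + 1 : ℕ) : ℝ) := by
    refine le_trans ?_ (log_upper m)
    rw [Finset.sum_range_succ]
    have : (0 : ℝ) ≤ 1 / ((2 * m + 1 : ℕ) : ℝ) := by positivity
    linarith
  rw [← hkm] at hlow hup
  set O := ∑ i ∈ Finset.range m, 1 / ((2 * i + 1 : ℕ) : ℝ) with hO
  have e3 : |2 * k / Real.pi * O - k * Real.log k / Real.pi| ≤ 2 * k / Real.pi := by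
    have : 2 * k / Real.pi * O - k * Real.log k / Real.pi =
        2 * k / Real.pi * (O - 1 / 2 * Real.log k) := by ring
    rw [this, abs_mul, abs_of_pos (by positivity)]
    have : |O - 1 / 2 * Real.log k| ≤ 1 := by
      rw [abs_le]; constructor <;> linarith
    calc 2 * k / Real.pi * |O - 1 / 2 * Real.log k| ≤ 2 * k / Real.pi * 1 := by
          apply mul_le_mul_of_nonneg_left this; positivity
      _ = 2 * k / Real.pi := by ring
  have e4 : 2 * (k : ℝ) / Real.pi ≤ k := by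
    rw [div_le_iff₀ hpi]
    nlinarith
  have e5 : (m : ℝ) ≤ k := by
    have : m ≤ k := by omega
    exact_mod_cast this
  rw [e2] at e1
  have := abs_sub_le (T k 1) (2 * k / Real.pi * O) (k * Real.log k / Real.pi)
  linarith

/-! ## SMALL -/

theorem hasSum_odd_sq : HasSum (fun i : ℕ => 1 / ((2 * i + 1 : ℕ) : ℝ) ^ 2) (Real.pi ^ 2 / 8) := by
  have h := hasSum_zeta_two
  have hs : Summable (fun n : ℕ => 1 / (n : ℝ) ^ 2) := h.summable
  have he : Summable (fun k : ℕ => 1 / ((2 * k : ℕ) : ℝ) ^ 2) :=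
    hs.comp_injective (i := fun k : ℕ => 2 * k) (fun a b hab => by
      simp only at hab; omega)
  have ho : Summable (fun k : ℕ => 1 / ((2 * k + 1 : ℕ) : ℝ) ^ 2) :=
    hs.comp_injective (i := fun k : ℕ => 2 * k + 1) (fun a b hab => by
      simp only at hab; omega)
  have h1 := tsum_even_add_odd (f := fun n : ℕ => 1 / (n : ℝ) ^ 2) he ho
  rw [h.tsum_eq] at h1
  have h2 : (∑' k : ℕ, 1 / ((2 * k : ℕ) : ℝ) ^ 2) = 1 / 4 * (Real.pi ^ 2 / 6) := by
    rw [← h.tsum_eq, ← tsum_mul_left]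
    congr 1
    funext k
    push_cast
    by_cases hk : (k : ℝ) = 0
    · rw [hk]; simp
    · field_simp
      ring
  rw [h2] at h1
  have h3 : (∑' k : ℕ, 1 / ((2 * k + 1 : ℕ) : ℝ) ^ 2) = Real.pi ^ 2 / 8 := by linarith
  rw [← h3]
  exact ho.hasSum

theorem odd_sq_partial (M : ℕ) (hM : 1 ≤ M) :
    |(∑ i ∈ Finset.range M, 1 / ((2 * i + 1 : ℕ) : ℝ) ^ 2) - Real.pi ^ 2 / 8| ≤
      1 / (4 * (M : ℝ)) := by
  have hs := hasSum_odd_sq
  have h1 : ∑ i ∈ Finset.range M, 1 / ((2 * i + 1 : ℕ) : ℝ) ^ 2 ≤ Real.pi ^ 2 / 8 :=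
    sum_le_hasSum _ (fun i _ => by positivity) hs
  have h2 : ∀ m, M ≤ m → ∑ i ∈ Finset.range m, 1 / ((2 * i + 1 : ℕ) : ℝ) ^ 2 ≤
      (∑ i ∈ Finset.range M, 1 / ((2 * i + 1 : ℕ) : ℝ) ^ 2) +
        (1 / (4 * (M : ℝ)) - 1 / (4 * (m : ℝ))) := by
    intro m hm
    induction m, hm using Nat.le_induction with
    | base => simp
    | succ m hm ih =>
      rw [Finset.sum_range_succ]
      have hm0 : (0 : ℝ) < m := by
        have : 0 < m := by omega
        exact_mod_cast this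
      have h3 : 1 / ((2 * m + 1 : ℕ) : ℝ) ^ 2 ≤ 1 / (4 * (m : ℝ)) - 1 / (4 * ((m + 1 : ℕ) : ℝ)) := by
        push_cast
        rw [div_sub_div _ _ (by positivity) (by positivity), div_le_div_iff₀ (by positivity)
          (by positivity)]
        nlinarith [hm0]
      linarith
  have h4 : Real.pi ^ 2 / 8 ≤
      (∑ i ∈ Finset.range M, 1 / ((2 * i + 1 : ℕ) : ℝ) ^ 2) + 1 / (4 * (M : ℝ)) := by
    refine le_of_tendsto hs.tendsto_sum_nat ?_
    filter_upwards [Filter.eventually_ge_atTop M] with m hm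
    have h5 := h2 m hm
    have h6 : (0 : ℝ) ≤ 1 / (4 * (m : ℝ)) := by positivity
    linarith
  rw [abs_le]
  constructor
  · linarith
  · have : (0 : ℝ) ≤ 1 / (4 * (M : ℝ)) := by positivity
    linarith

theorem odds_filter (k N : ℕ) (hN : N < k) :
    (odds k).filter (fun n => n ≤ N) = odds (2 * ((N + 1) / 2) + 1) := by
  ext n
  simp only [odds, Finset.mem_filter, Finset.mem_range]
  omega

theorem log_le_self' (n : ℕ) (hn : 1 ≤ n) : 1 + Real.log n ≤ n := by
  have h : (0 : ℝ) < n := by exact_mod_cast hn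
  have := Real.log_le_sub_one_of_pos h
  linarith

theorem pf_SMALL (hWGT : TARGET_WGT) (hT1 : TARGET_T1) (hPERT : TARGET_PERT) : TARGET_SMALL := by
  refine ⟨20, by norm_num, ?_⟩
  intro k hk h2 N hN hNk
  obtain ⟨m, hm, hkm⟩ := odd_of_prime k hk.out h2
  have hk3 : 3 ≤ k := by omega
  obtain ⟨hW1, hW2, hW3, _, hW5, _⟩ := hWGT k hk3
  have hk0 : (0 : ℝ) < k := by positivity
  have hk1 : (1 : ℝ) ≤ k := by
    have : 1 ≤ k := by omega
    exact_mod_cast this
  have hpi := Real.pi_pos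
  have hpi3 := Real.pi_gt_three
  have hpi4 := Real.pi_lt_four
  have hN0 : (0 : ℝ) < N := by exact_mod_cast hN
  have hN1 : (1 : ℝ) ≤ N := by exact_mod_cast hN
  have hlN : 0 ≤ Real.log N := Real.log_nonneg hN1
  have hlk : 0 ≤ Real.log k := Real.log_nonneg hk1
  have hlkk : Real.log k ≤ k := by
    have := log_le_self' k (by omega)
    linarith
  have hlNN := log_le_self' N hN
  have hkpi : 2 * (k : ℝ) / Real.pi ≤ k := by
    rw [div_le_iff₀ hpi, mul_comm (k : ℝ) Real.pi]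
    exact mul_le_mul_of_nonneg_right (by linarith) hk0.le
  have hNkR : (N : ℝ) ≤ k := by exact_mod_cast hNk.le
  set D := (odds k).filter (fun n => n ≤ N) with hD
  have hDm : ∀ n ∈ D, 0 < n ∧ n < k ∧ n ≤ N ∧ n ∈ odds k := by
    intro n hn
    have h1 := Finset.mem_filter.1 hn
    have h3 := Finset.mem_filter.1 h1.1
    exact ⟨by omega, Finset.mem_range.1 h3.1, h1.2, h1.1⟩
  -- decomposition
  have hdec : ∑ n ∈ D, w k n * T k n = T k 1 * ∑ n ∈ D, w k n / n +
      ∑ n ∈ D, w k n * (T k n - T k 1 / n) := by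
    rw [Finset.mul_sum, ← Finset.sum_add_distrib]
    refine Finset.sum_congr rfl ?_
    intro n _
    ring
  -- second part
  have hsec : |∑ n ∈ D, w k n * (T k n - T k 1 / n)| ≤ 2 * k ^ 2 * (1 + Real.log N) ^ 2 := by
    refine le_trans (Finset.abs_sum_le_sum_abs _ _) ?_
    have h1 : ∑ n ∈ D, |w k n * (T k n - T k 1 / n)| ≤
        ∑ n ∈ D, w k n * (2 * k * (1 + Real.log N)) := by
      refine Finset.sum_le_sum ?_
      intro n hn
      obtain ⟨a1, a2, a3, a4⟩ := hDm n hn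
      rw [abs_mul, abs_of_pos (hW1 n a1 a2)]
      refine mul_le_mul_of_nonneg_left ?_ (hW1 n a1 a2).le
      refine le_trans (hPERT k h2 n a4) ?_
      have hlog : Real.log n ≤ Real.log N := by
        apply Real.log_le_log
        · exact_mod_cast a1
        · exact_mod_cast a3
      have : (0 : ℝ) ≤ 2 * k := by positivity
      nlinarith
    refine le_trans h1 ?_
    rw [← Finset.sum_mul]
    have h3 := hW5 N hN
    have h4 : (0 : ℝ) ≤ 2 * k * (1 + Real.log N) := by positivity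
    calc (∑ n ∈ D, w k n) * (2 * k * (1 + Real.log N)) ≤
        (k * (1 + Real.log N)) * (2 * k * (1 + Real.log N)) :=
          mul_le_mul_of_nonneg_right h3 h4
      _ = 2 * k ^ 2 * (1 + Real.log N) ^ 2 := by ring
  -- first part
  set M := (N + 1) / 2 with hM
  have hM1 : 1 ≤ M := by omega
  have hNM : N ≤ 2 * M := by omega
  have hMN : M ≤ N := by omega
  have hDM : D = odds (2 * M + 1) := odds_filter k N hNk
  have hA : |(∑ n ∈ D, 1 / (n : ℝ) ^ 2) - Real.pi ^ 2 / 8| ≤ 1 / (N : ℝ) := by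
    rw [hDM, sum_odds (fun n => 1 / (n : ℝ) ^ 2) M]
    refine le_trans (odd_sq_partial M hM1) ?_
    have hMp : (0 : ℝ) < M := by exact_mod_cast hM1
    rw [div_le_div_iff₀ (by positivity) hN0]
    have : (N : ℝ) ≤ 2 * M := by exact_mod_cast hNM
    linarith
  have hH : ∑ n ∈ D, 1 / (n : ℝ) ≤ 1 + Real.log N := by
    rw [hDM, sum_odds (fun n => 1 / (n : ℝ)) M]
    obtain ⟨M', hM'⟩ : ∃ M', M = M' + 1 := ⟨M - 1, by omega⟩
    rw [hM']
    refine le_trans (log_upper M') ?_
    have hlog : Real.log ((2 * M' + 1 : ℕ) : ℝ) ≤ Real.log N := by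
      apply Real.log_le_log
      · positivity
      · have : 2 * M' + 1 ≤ N := by omega
        exact_mod_cast this
    have : 0 ≤ Real.log ((2 * M' + 1 : ℕ) : ℝ) := by
      apply Real.log_nonneg
      have : 1 ≤ 2 * M' + 1 := by omega
      exact_mod_cast this
    linarith
  have hE1 : |∑ n ∈ D, w k n / n - k * Real.pi / 4| ≤ 2 * k / Real.pi * (1 / N) +
      (1 + Real.log N) := by
    have h1 : |∑ n ∈ D, w k n / n - ∑ n ∈ D, 2 * k / Real.pi * (1 / (n : ℝ) ^ 2)| ≤
        1 + Real.log N := by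
      rw [← Finset.sum_sub_distrib]
      refine le_trans (Finset.abs_sum_le_sum_abs _ _) ?_
      refine le_trans (Finset.sum_le_sum ?_) hH
      intro n hn
      obtain ⟨a1, a2, a3, a4⟩ := hDm n hn
      have hn0 : (0 : ℝ) < n := by exact_mod_cast a1
      have h5 : w k n / n - 2 * k / Real.pi * (1 / (n : ℝ) ^ 2) =
          (w k n - 2 * k / (Real.pi * n)) * (1 / n) := by
        field_simp
      rw [h5, abs_mul, abs_of_pos (by positivity : (0 : ℝ) < 1 / n)]
      have h6 := hW3 n a1 a2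
      have h7 : (0 : ℝ) ≤ 1 / n := by positivity
      nlinarith
    rw [← Finset.mul_sum] at h1
    have h2' : |2 * k / Real.pi * ∑ n ∈ D, 1 / (n : ℝ) ^ 2 - k * Real.pi / 4| ≤
        2 * k / Real.pi * (1 / N) := by
      have h5 : 2 * k / Real.pi * ∑ n ∈ D, 1 / (n : ℝ) ^ 2 - k * Real.pi / 4 =
          2 * k / Real.pi * (∑ n ∈ D, 1 / (n : ℝ) ^ 2 - Real.pi ^ 2 / 8) := by
        field_simp
        ring
      rw [h5, abs_mul, abs_of_pos (by positivity)]
      exact mul_le_mul_of_nonneg_left hA (by positivity)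
    have := abs_sub_le (∑ n ∈ D, w k n / n) (2 * k / Real.pi * ∑ n ∈ D, 1 / (n : ℝ) ^ 2)
      (k * Real.pi / 4)
    linarith
  have hE0 := hT1 k h2
  set W := ∑ n ∈ D, w k n / n with hWdef
  set E0 := T k 1 - k * Real.log k / Real.pi with hE0def
  set E1 := W - k * Real.pi / 4 with hE1def
  have hprod : T k 1 * W - (k : ℝ) ^ 2 * Real.log k / 4 =
      k * Real.log k / Real.pi * E1 + E0 * (k * Real.pi / 4) + E0 * E1 := by
    have hT : T k 1 = E0 + k * Real.log k / Real.pi := by rw [hE0def]; ring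
    have hWW : W = E1 + k * Real.pi / 4 := by rw [hE1def]; ring
    rw [hT, hWW]
    field_simp
    ring
  set B := 2 * k / Real.pi * (1 / N) + (1 + Real.log N) with hB
  have hBnn : 0 ≤ B := by positivity
  have hLN2 : 1 + Real.log N ≤ (1 + Real.log N) ^ 2 := by nlinarith
  have hLN1 : 1 ≤ (1 + Real.log N) ^ 2 := by nlinarith
  -- three bounds
  have b1 : |k * Real.log k / Real.pi * E1| ≤ k ^ 2 * (Real.log k / N) +
      k ^ 2 * (1 + Real.log N) ^ 2 := by
    rw [abs_mul, abs_of_nonneg (by positivity)]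
    have h5 : k * Real.log k / Real.pi ≤ k * Real.log k := by
      apply div_le_self (by positivity) (by linarith)
    have h6 : |E1| ≤ k * (1 / N) + (1 + Real.log N) := by
      refine le_trans hE1 ?_
      have h8 : (0 : ℝ) ≤ 1 / N := by positivity
      have h9 := mul_le_mul_of_nonneg_right hkpi h8
      linarith
    have h7 : 0 ≤ k * Real.log k := by positivity
    calc k * Real.log k / Real.pi * |E1| ≤ (k * Real.log k) * |E1| :=
          mul_le_mul_of_nonneg_right h5 (abs_nonneg _)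
      _ ≤ (k * Real.log k) * (k * (1 / N) + (1 + Real.log N)) :=
          mul_le_mul_of_nonneg_left h6 h7
      _ = k ^ 2 * (Real.log k / N) + k * Real.log k * (1 + Real.log N) := by ring
      _ ≤ k ^ 2 * (Real.log k / N) + k ^ 2 * (1 + Real.log N) ^ 2 := by
          have h9 : k * Real.log k ≤ (k : ℝ) ^ 2 := by
            rw [pow_two]; exact mul_le_mul_of_nonneg_left hlkk hk0.le
          have h10 : k * Real.log k * (1 + Real.log N) ≤ k ^ 2 * (1 + Real.log N) :=
            mul_le_mul_of_nonneg_right h9 (by linarith)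
          have h11 : (k : ℝ) ^ 2 * (1 + Real.log N) ≤ k ^ 2 * (1 + Real.log N) ^ 2 :=
            mul_le_mul_of_nonneg_left hLN2 (by positivity)
          linarith
  have b2 : |E0 * (k * Real.pi / 4)| ≤ 2 * k ^ 2 * (1 + Real.log N) ^ 2 := by
    rw [abs_mul, abs_of_pos (by positivity : 0 < k * Real.pi / 4)]
    calc |E0| * (k * Real.pi / 4) ≤ (2 * k) * (k * Real.pi / 4) :=
          mul_le_mul_of_nonneg_right hE0 (by positivity)
      _ = (k : ℝ) ^ 2 * (Real.pi / 2) := by ring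
      _ ≤ (k : ℝ) ^ 2 * 2 := mul_le_mul_of_nonneg_left (by linarith) (by positivity)
      _ = 2 * (k : ℝ) ^ 2 * 1 := by ring
      _ ≤ 2 * k ^ 2 * (1 + Real.log N) ^ 2 :=
          mul_le_mul_of_nonneg_left hLN1 (by positivity)
  have b3 : |E0 * E1| ≤ 4 * k ^ 2 * (1 + Real.log N) ^ 2 := by
    rw [abs_mul]
    have h6 : |E1| ≤ 2 * k * (1 + Real.log N) := by
      refine le_trans hE1 ?_
      have h8 : 1 / (N : ℝ) ≤ 1 := by
        rw [div_le_one hN0]; exact hN1
      have h9 : 2 * k / Real.pi * (1 / N) ≤ k * 1 :=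
        mul_le_mul hkpi h8 (by positivity) hk0.le
      have h10 : 1 * (1 + Real.log N) ≤ k * (1 + Real.log N) :=
        mul_le_mul_of_nonneg_right hk1 (by linarith)
      have h11 : (k : ℝ) * 1 ≤ k * (1 + Real.log N) :=
        mul_le_mul_of_nonneg_left (by linarith) hk0.le
      linarith
    calc |E0| * |E1| ≤ (2 * k) * (2 * k * (1 + Real.log N)) :=
          mul_le_mul hE0 h6 (abs_nonneg _) (by positivity)
      _ = 4 * k ^ 2 * (1 + Real.log N) := by ring
      _ ≤ 4 * k ^ 2 * (1 + Real.log N) ^ 2 :=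
          mul_le_mul_of_nonneg_left hLN2 (by positivity)
  rw [hdec]
  have htot : T k 1 * W + ∑ n ∈ D, w k n * (T k n - T k 1 / n) - (k : ℝ) ^ 2 * Real.log k / 4 =
      k * Real.log k / Real.pi * E1 + E0 * (k * Real.pi / 4) + E0 * E1 +
      ∑ n ∈ D, w k n * (T k n - T k 1 / n) := by
    rw [← hprod]; ring
  rw [htot]
  have t1 := abs_add_le (k * Real.log k / Real.pi * E1 + E0 * (k * Real.pi / 4) + E0 * E1)
    (∑ n ∈ D, w k n * (T k n - T k 1 / n))
  have t2 := abs_add_le (k * Real.log k / Real.pi * E1 + E0 * (k * Real.pi / 4)) (E0 * E1)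
  have t3 := abs_add_le (k * Real.log k / Real.pi * E1) (E0 * (k * Real.pi / 4))
  have p1 : 0 ≤ (k : ℝ) ^ 2 * (Real.log k / N) := by positivity
  have p2 : 0 ≤ (k : ℝ) ^ 2 * (1 + Real.log N) ^ 2 := by positivity
  have hfin : 20 * (k : ℝ) ^ 2 * (Real.log k / N + (1 + Real.log N) ^ 2) =
      20 * ((k : ℝ) ^ 2 * (Real.log k / N)) + 20 * ((k : ℝ) ^ 2 * (1 + Real.log N) ^ 2) := by ring
  rw [hfin]
  linarith

end Pool.Agent.H69.SKT
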